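import Pool.Agent.helper38.TA.SpecA

/-!
# Project TA, row GDA (adapted from Pool/Agent/helper43/ZT/GDA.lean)
-/

set_option autoImplicit false

open Complex MeasureTheory Set

namespace Pool.Agent.TA

open Pool.Agent.ZT (Cen)

/-- the termwise bound -/
theorem GDA_term (a : ℕ → ℂ) (C₀ C : ℝ) (hC₀ : 0 ≤ C₀) (ha0 : a 0 = 0) (ham : ∀ m : ℕ, ‖a m‖ ≤ C₀ * m)
    (g : ℝ → ℂ) (σ : ℝ) (hσ : 3 ≤ σ) (hC : ∀ x : ℝ, 0 < x → ‖g x‖ ≤ C * x ^ (-σ)) (d : ℕ) (x : ℝ) (hx : 0 < x) :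
    ‖a d * g (d * x)‖ ≤ C₀ * C * (d : ℝ) ^ (-2 : ℝ) * x ^ (-σ) := by
  have hCnn : 0 ≤ C := by
    have := hC 1 one_pos
    rw [Real.one_rpow, mul_one] at this
    exact (norm_nonneg _).trans this
  rcases Nat.eq_zero_or_pos d with rfl | hd
  · rw [ha0, zero_mul, norm_zero]
    positivity
  · have hd' : (0 : ℝ) < d := by exact_mod_cast hd
    have hd1 : (1 : ℝ) ≤ d := by exact_mod_cast hd
    rw [norm_mul]
    calc ‖a d‖ * ‖g (d * x)‖ ≤ (C₀ * d) * (C * (d * x) ^ (-σ)) :=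
          mul_le_mul (ham d) (hC _ (by positivity)) (norm_nonneg _) (by positivity)
      _ = C₀ * C * (d * (d : ℝ) ^ (-σ)) * x ^ (-σ) := by
          rw [Real.mul_rpow hd'.le hx.le]; ring
      _ ≤ C₀ * C * (d : ℝ) ^ (-2 : ℝ) * x ^ (-σ) := by
          have h1 : (d : ℝ) * (d : ℝ) ^ (-σ) = (d : ℝ) ^ (1 + -σ) := by
            rw [Real.rpow_add hd', Real.rpow_one]
          have h2 : (d : ℝ) ^ (1 + -σ) ≤ (d : ℝ) ^ (-2 : ℝ) :=
            Real.rpow_le_rpow_of_exponent_le hd1 (by linarith)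
          rw [h1]
          gcongr

theorem GDA_sum : Summable (fun d : ℕ => (d : ℝ) ^ (-2 : ℝ)) :=
  Real.summable_nat_rpow.mpr (by norm_num)

theorem GDA : GDA_stmt := by
  intro n V _ _ g C₁ C₀ a b ht hc
  have hC₀ : 0 ≤ C₀ := hc.pos.le
  have hS : ∀ (j : ℕ) (v : V) (x : ℝ), 0 < x → Summable (fun d : ℕ => ‖a d * g j v (d * x)‖) := by
    intro j v x hx
    obtain ⟨C, hC⟩ := ht.dec j v 3 (by norm_num)
    refine Summable.of_nonneg_of_le (fun _ => norm_nonneg _)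
      (fun d => GDA_term a C₀ C hC₀ hc.a0 hc.bda _ 3 le_rfl hC d x hx) ?_
    exact (GDA_sum.mul_left (C₀ * C)).mul_right _
  refine ⟨hS, ?_, ?_, ?_, ?_⟩
  · intro j v x hx
    obtain ⟨C, hC⟩ := ht.dec (j + 1) v 3 (by norm_num)
    have hx2 : 0 < x / 2 := by linarith
    have hderiv := hasDerivAt_tsum_of_isPreconnected
      (g := fun (d : ℕ) (y : ℝ) => a d * g j v (d * y))
      (g' := fun (d : ℕ) (y : ℝ) => a d * g (j + 1) v (d * y) / y)
      (u := fun d : ℕ => C₀ * C * (d : ℝ) ^ (-2 : ℝ) * ((x / 2) ^ (-3 : ℝ) * (x / 2)⁻¹))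
      (t := Ioi (x / 2)) (y₀ := x) (y := x)
      ((GDA_sum.mul_left (C₀ * C)).mul_right _) isOpen_Ioi isPreconnected_Ioi ?_ ?_
      (by rw [mem_Ioi]; linarith) ((hS j v x hx).of_norm) (by rw [mem_Ioi]; linarith)
    · have h1 : ∑' d : ℕ, a d * g (j + 1) v (d * x) / (x : ℂ) = GX g a (j + 1) v x / x := by
        rw [tsum_div_const]
        rfl
      rw [h1] at hderiv
      exact hderiv
    · intro d y hy
      have hy0 : 0 < y := hx2.trans hy
      rcases Nat.eq_zero_or_pos d with rfl | hd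
      · simp only [hc.a0, zero_mul, zero_div]
        exact hasDerivAt_const _ _
      · have hd' : (0 : ℝ) < d := by exact_mod_cast hd
        have h2 := ht.der j v (d * y) (by positivity)
        have h3 : HasDerivAt (fun y : ℝ => (d : ℝ) * y) (d : ℝ) y := by
          simpa using (hasDerivAt_id y).const_mul (d : ℝ)
        have h4 := (h2.scomp y h3).const_mul (a d)
        refine h4.congr_deriv ?_
        have hdc : (d : ℂ) ≠ 0 := by exact_mod_cast hd.ne'
        have hyc : (y : ℂ) ≠ 0 := by exact_mod_cast hy0.ne'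
        rw [Complex.real_smul]
        push_cast
        field_simp
    · intro d y hy
      have hy0 : 0 < y := hx2.trans hy
      rw [norm_div, Complex.norm_real, Real.norm_of_nonneg hy0.le, div_eq_mul_inv]
      have hCnn : 0 ≤ C := by
        have := hC 1 one_pos
        rw [Real.one_rpow, mul_one] at this
        exact (norm_nonneg _).trans this
      have h5 := GDA_term a C₀ C hC₀ hc.a0 hc.bda _ 3 le_rfl hC d y hy0
      have h6 : y ^ (-3 : ℝ) ≤ (x / 2) ^ (-3 : ℝ) :=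
        Real.rpow_le_rpow_of_nonpos hx2 (le_of_lt hy) (by norm_num)
      have h7 : y⁻¹ ≤ (x / 2)⁻¹ := inv_anti₀ hx2 (le_of_lt hy)
      calc ‖a d * g (j + 1) v (d * y)‖ * y⁻¹ ≤
            (C₀ * C * (d : ℝ) ^ (-2 : ℝ) * y ^ (-3 : ℝ)) * y⁻¹ :=
            mul_le_mul_of_nonneg_right h5 (by positivity)
        _ ≤ (C₀ * C * (d : ℝ) ^ (-2 : ℝ) * (x / 2) ^ (-3 : ℝ)) * (x / 2)⁻¹ := by gcongr
        _ = _ := by ring
  · intro j v σ hσ
    obtain ⟨C, hC⟩ := ht.dec j v σ (by linarith)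
    refine ⟨∑' d : ℕ, C₀ * C * (d : ℝ) ^ (-2 : ℝ), fun x hx => ?_⟩
    unfold GX
    have hs : Summable (fun d : ℕ => C₀ * C * (d : ℝ) ^ (-2 : ℝ) * x ^ (-σ)) :=
      (GDA_sum.mul_left (C₀ * C)).mul_right _
    rw [← tsum_mul_right]
    exact tsum_of_norm_bounded hs.hasSum
      (fun d => GDA_term a C₀ C hC₀ hc.a0 hc.bda _ σ hσ hC d x hx)
  · intro j v w x hx
    unfold GX
    rw [← ((hS j v x hx).of_norm).tsum_add ((hS j w x hx).of_norm)]
    refine tsum_congr fun d => ?_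
    rw [ht.add j v w, mul_add]
  · intro j c v x hx
    unfold GX
    rw [← tsum_mul_left]
    refine tsum_congr fun d => ?_
    rw [ht.smul j c v]
    ring

end Pool.Agent.TA
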